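import Pool.Agent.COSB.StmtsL

/-!
# Squad COSB, row INH: from integer matrices to matrices modulo `2 ^ (w + 1)`
-/

set_option autoImplicit false

namespace Pool.Agent.COSB.H62

open Turing Computability Pool.Agent.UT.Num Pool.Agent.H2XG Pool.Agent.PAR Pool.Agent.COS Matrix

theorem inh (h1 : WoeStmt) (h2 : EnzStmt) : InhStmt := by
  classical
  intro n w S hS hR f hf
  obtain ⟨w1, _, w3, _, _⟩ := h1 n (w + 1)
  obtain ⟨z1, z2, _⟩ := h2 n w
  obtain ⟨π, hπ⟩ : ∃ π : Matrix.GeneralLinearGroup (Fin n) ℤ →* G2 n (w + 1),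
      π = Matrix.GeneralLinearGroup.map (Int.castRingHom (ZMod (2 ^ (w + 1)))) := ⟨_, rfl⟩
  have hπ1 : ∀ U : Matrix.GeneralLinearGroup (Fin n) ℤ,
      (π U).1 = U.1.map (fun z => (z : ZMod (2 ^ (w + 1)))) := by
    intro U
    rw [hπ]
    rfl
  have hen : ∀ U : Matrix.GeneralLinearGroup (Fin n) ℤ,
      enc2 (w + 1) (π U).1 = encZ w U.1 := by
    intro U
    rw [hπ1, (z1 U.1).1]
  have hinj : ∀ U ∈ S, ∀ U' ∈ S, encZ w U.1 = encZ w U'.1 → U = U' := by
    intro U hU U' hU' he
    apply Units.ext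
    ext i j
    have a1 := z2 U.1 i j (hR U hU i j).1.1 (hR U hU i j).1.2
    have a2 := z2 U'.1 i j (hR U' hU' i j).1.1 (hR U' hU' i j).1.2
    rw [← a1, ← a2, he]
  have key : ∀ A : G2 n (w + 1), A ∈ WS n (w + 1) (n * n * (w + 1)) f ↔ ∃ U ∈ S, π U = A := by
    intro A
    constructor
    · intro hA
      have h3 : Odd {c : Word | c.length = n * n * (w + 1) ∧
        f (enc2 (w + 1) A.1) c = true}.ncard := hA
      have h4 : {c : Word | c.length = n * n * (w + 1) ∧
        f (enc2 (w + 1) A.1) c = true}.Nonempty := by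
        rw [Set.nonempty_iff_ne_empty]
        intro h5
        rw [h5, Set.ncard_empty] at h3
        exact absurd h3 (by decide)
      obtain ⟨c, hc1, hc2⟩ := h4
      obtain ⟨U, hU, hu1, _⟩ := (hf _ c (w1 A.1) hc1).mp hc2
      refine ⟨U, hU, ?_⟩
      apply Units.ext
      apply w3
      rw [hu1]
      exact hen U
    · rintro ⟨U, hU, rfl⟩
      change Odd {c : Word | c.length = n * n * (w + 1) ∧
        f (enc2 (w + 1) (π U).1) c = true}.ncard
      have h4 : {c : Word | c.length = n * n * (w + 1) ∧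
        f (enc2 (w + 1) (π U).1) c = true} = {encZ w (U⁻¹).1} := by
        ext c
        rw [Set.mem_singleton_iff]
        constructor
        · rintro ⟨hc1, hc2⟩
          obtain ⟨U', hU', hu1, hu2⟩ := (hf _ c (w1 _) hc1).mp hc2
          rw [hen] at hu1
          rw [hinj U hU U' hU' hu1]
          exact hu2
        · intro hc
          have hl : c.length = n * n * (w + 1) := by
            rw [hc]
            exact (z1 _).2
          exact ⟨hl, (hf _ c (w1 _) hl).mpr ⟨U, hU, hen U, hc⟩⟩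
      rw [h4, Set.ncard_singleton]
      exact odd_one
  constructor
  · intro a ha b hb c hc
    obtain ⟨U, hU, rfl⟩ := (key a).mp ha
    obtain ⟨V, hV, rfl⟩ := (key b).mp hb
    obtain ⟨T, hT, rfl⟩ := (key c).mp hc
    refine (key _).mpr ⟨U * V⁻¹ * T, hS U hU V hV T hT, ?_⟩
    rw [map_mul, map_mul, map_inv]
  · constructor
    · rintro ⟨A, hA⟩
      obtain ⟨U, hU, _⟩ := (key A).mp hA
      exact ⟨U, hU⟩
    · rintro ⟨U, hU⟩
      exact ⟨π U, (key _).mpr ⟨U, hU, rfl⟩⟩

end Pool.Agent.COSB.H62
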